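import Pool.Agent.Lib.MP_43cf21_an.Refl

set_option autoImplicit false

/-!
An isometry that agrees on an infinite-dimensional subspace with a pointwise limit of uniformly
bounded compact operators does not have the Bhatia-Semrl property.
-/

namespace Pool.Agent.FS.RangeApprox

open Set Filter Topology Pool.Agent.Lib.MP_43cf21_an

section HB

variable {V : Type*} [NormedAddCommGroup V] [NormedSpace ℝ V]

lemma mem_closure_of_dual (M : Submodule ℝ V) (c : V)
    (h : ∀ ψ : StrongDual ℝ V, (∀ v ∈ M, ψ v = 0) → ψ c = 0) : c ∈ closure (M : Set V) := by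
  by_contra hc
  obtain ⟨f, u, h1, h2⟩ := geometric_hahn_banach_point_closed M.convex.closure isClosed_closure hc
  have h0 : u < 0 := by simpa using h2 0 (subset_closure M.zero_mem)
  have h3 : ∀ v ∈ M, f v = 0 := fun v hv => by
    by_contra hv0
    have := h2 ((u / f v) • v) (subset_closure (M.smul_mem _ hv))
    rw [map_smul, smul_eq_mul, div_mul_cancel₀ _ hv0] at this
    exact lt_irrefl _ this
  have := h f h3
  linarith

/-- A countable set of points that norms the span of a countable set of functionals. -/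
lemma exists_norming (Ψ : Set (StrongDual ℝ V)) (hΨ : Ψ.Countable) :
    ∃ Γ : Set V, Γ.Countable ∧ ∀ f : StrongDual ℝ V, (∀ x ∈ Γ, f x = 0) →
      ∀ g ∈ Submodule.span ℝ Ψ, ‖g‖ ≤ 2 * ‖g - f‖ := by
  obtain ⟨c, hc, hc'⟩ := hΨ.isSeparable.span (R := ℝ)
  have h1 : ∀ d : StrongDual ℝ V, ∃ x : V, ‖x‖ ≤ 1 ∧ ‖d‖ ≤ 2 * ‖d x‖ := fun d => by
    rcases (norm_nonneg d).eq_or_lt with h | h
    · exact ⟨0, by simp, by rw [← h]; positivity⟩
    · obtain ⟨x, hx, hx'⟩ := d.exists_lt_apply_of_lt_opNorm (half_lt_self h)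
      exact ⟨x, hx.le, by linarith⟩
  choose p hp1 hp2 using h1
  refine ⟨p '' c, hc.image p, fun f hf g hg => ?_⟩
  have h2 : IsClosed {g : StrongDual ℝ V | ‖g‖ ≤ 2 * ‖g - f‖} :=
    isClosed_le continuous_norm (by fun_prop)
  refine closure_minimal (fun d hd => ?_) h2 (hc' hg)
  have h3 : ‖(d - f) (p d)‖ ≤ ‖d - f‖ := (d - f).unit_le_opNorm _ (hp1 d)
  have h4 : (d - f) (p d) = d (p d) := by
    rw [sub_apply, hf _ (mem_image_of_mem p hd), sub_zero]
  rw [h4] at h3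
  have := hp2 d
  change ‖d‖ ≤ 2 * ‖d - f‖
  linarith

end HB

variable {X Y : Type*} [NormedAddCommGroup X] [NormedSpace ℝ X] [NormedAddCommGroup Y]
  [NormedSpace ℝ Y]

/-- The kernel of a compact operator is cut out by countably many functionals. -/
lemma exists_sep (K : X →L[ℝ] Y) (hK : IsCompactOperator K) :
    ∃ Φ : Set (StrongDual ℝ X), Φ.Countable ∧ ∀ x, (∀ φ ∈ Φ, φ x = 0) → K x = 0 := by
  have h1 : TopologicalSpace.IsSeparable (⋃ n : ℕ, K '' Metric.closedBall 0 n) := by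
    refine TopologicalSpace.IsSeparable.iUnion fun n => ?_
    obtain ⟨Q, hQ, hQ'⟩ := IsCompactOperator.image_closedBall_subset_compact
      (f := (K : X →ₗ[ℝ] Y)) hK (n : ℝ)
    exact hQ.isSeparable.mono hQ'
  obtain ⟨c, hc, hc'⟩ := h1
  choose g hg1 hg2 using fun y : Y => exists_dual_vector'' ℝ y
  refine ⟨(fun y => (g y).comp K) '' c, hc.image _, fun x hx => ?_⟩
  have h2 : K x ∈ closure c := by
    obtain ⟨n, hn⟩ := exists_nat_ge ‖x‖
    exact hc' (mem_iUnion.2 ⟨n, x, by simpa using hn, rfl⟩)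
  have h3 : IsClosed {y : Y | ‖y‖ ≤ ‖y - K x‖} := isClosed_le continuous_norm (by fun_prop)
  have h4 : ‖K x‖ ≤ ‖K x - K x‖ := by
    refine closure_minimal (fun y hy => ?_) h3 h2
    have h5 : g y (K x) = 0 := hx _ (mem_image_of_mem _ hy)
    have h6 : ‖g y (y - K x)‖ ≤ 1 * ‖y - K x‖ := (g y).le_of_opNorm_le (hg1 y) _
    rw [map_sub, h5, sub_zero, hg2, one_mul] at h6
    change ‖y‖ ≤ ‖y - K x‖
    simpa using h6
  simpa using h4

/-- Along a separated bounded sequence a compact operator is small on some difference. -/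
lemma exists_small {R : ℝ} (v : ℕ → X) (hv : ∀ n, ‖v n‖ ≤ R)
    (hs : Pairwise fun m n => 1 ≤ ‖v m - v n‖) (K : X →L[ℝ] Y) (hK : IsCompactOperator K) :
    ∃ m n, 1 ≤ ‖v m - v n‖ ∧ ‖K (v m - v n)‖ ≤ 1 / 2 := by
  obtain ⟨Q, hQ, hQ'⟩ := IsCompactOperator.image_closedBall_subset_compact
    (f := (K : X →ₗ[ℝ] Y)) hK R
  obtain ⟨a, -, φ, hφ, h⟩ := hQ.tendsto_subseq (x := fun n => K (v n))
    fun n => hQ' ⟨v n, by simpa using hv n, rfl⟩
  obtain ⟨N, hN⟩ := Metric.cauchySeq_iff.1 h.cauchySeq (1 / 2) (by norm_num)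
  refine ⟨φ N, φ (N + 1), hs (hφ.injective.ne (by omega)), ?_⟩
  have := hN N le_rfl (N + 1) (by omega)
  rw [dist_eq_norm] at this
  rw [map_sub]
  exact this.le

/-- Separable reduction: a bounded sequence of compact operators that converges at every point,
to `T` on a given countable set. -/
lemma exists_seq [CompleteSpace Y]
    (hR : Function.Surjective (NormedSpace.inclusionInDoubleDual ℝ X)) (T : X →L[ℝ] Y) {M : ℝ}
    (h : ∀ F : Set X, F.Finite → ∀ ε : ℝ, 0 < ε →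
      ∃ K : X →L[ℝ] Y, IsCompactOperator K ∧ ‖K‖ ≤ M ∧ ∀ x ∈ F, ‖K x - T x‖ ≤ ε)
    (v : ℕ → X) :
    ∃ (C : ℕ → X →L[ℝ] Y) (S : X →L[ℝ] Y), (∀ n, IsCompactOperator (C n)) ∧ (∀ n, ‖C n‖ ≤ M) ∧
      (∀ x, Tendsto (fun n => C n x) atTop (𝓝 (S x))) ∧ ∀ n, S (v n) = T (v n) := by
  have h' : ∀ (F : Set X) (n : ℕ), ∃ K : X →L[ℝ] Y, IsCompactOperator K ∧ ‖K‖ ≤ M ∧
      (F.Finite → ∀ x ∈ F, ‖K x - T x‖ ≤ 1 / ((n : ℝ) + 1)) := fun F n => by
    by_cases hF : F.Finite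
    · obtain ⟨K, h1, h2, h3⟩ := h F hF _ (Nat.one_div_pos_of_nat (n := n))
      exact ⟨K, h1, h2, fun _ => h3⟩
    · obtain ⟨K, h1, h2, -⟩ := h ∅ finite_empty 1 one_pos
      exact ⟨K, h1, h2, fun hF' => absurd hF' hF⟩
  choose κ hκ1 hκ2 hκ3 using h'
  choose Φ hΦ1 hΦ2 using fun (F : Set X) (n : ℕ) => exists_sep (κ F n) (hκ1 F n)
  let Ψ : Set X → Set (StrongDual ℝ X) := fun G =>
    ⋃ F ∈ {F : Set X | F.Finite ∧ F ⊆ G}, ⋃ n, Φ F n
  have hΨ : ∀ G : Set X, G.Countable → (Ψ G).Countable := fun G hG =>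
    (countable_ofPred_finite_subset hG).biUnion fun F _ => countable_iUnion (hΦ1 F)
  have hΨm : Monotone Ψ := fun G G' hG =>
    biUnion_subset_biUnion_left fun F hF => ⟨hF.1, hF.2.trans hG⟩
  choose Γ hΓ1 hΓ2 using fun G : {G : Set X // G.Countable} => exists_norming (Ψ G.1) (hΨ _ G.2)
  let G : ℕ → {G : Set X // G.Countable} := fun m =>
    Nat.rec ⟨range v, countable_range v⟩ (fun _ G => ⟨G.1 ∪ Γ G, G.2.union (hΓ1 G)⟩) m
  have hGs : ∀ m, (G (m + 1)).1 = (G m).1 ∪ Γ (G m) := fun m => rfl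
  have hGm : Monotone fun m => (G m).1 :=
    monotone_nat_of_le_succ fun m => by rw [hGs]; exact subset_union_left
  let U : Set X := ⋃ m, (G m).1
  have hU : U.Countable := countable_iUnion fun m => (G m).2
  have hvU : ∀ n, v n ∈ U := fun n => mem_iUnion.2 ⟨0, mem_range_self n⟩
  have hΨU : Ψ U ⊆ ⋃ m, Ψ (G m).1 := by
    intro φ hφ
    obtain ⟨F, ⟨hF, hFU⟩, hφ'⟩ := mem_iUnion₂.1 hφ
    obtain ⟨m, hm⟩ := hGm.directed_le.exists_mem_subset_of_finset_subset_biUnion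
      (s := hF.toFinset) (by simpa using hFU)
    exact mem_iUnion.2 ⟨m, mem_iUnion₂.2 ⟨F, ⟨hF, by simpa using hm⟩, hφ'⟩⟩
  obtain ⟨e, he⟩ := hU.exists_eq_range ⟨_, hvU 0⟩
  let C : ℕ → X →L[ℝ] Y := fun n => κ (e '' Iic n) n
  have hfin : ∀ n : ℕ, (e '' Iic n).Finite := fun n => (finite_Iic n).image e
  have hC1 : ∀ x ∈ U, Tendsto (fun n => C n x) atTop (𝓝 (T x)) := fun x hx => by
    rw [he] at hx
    obtain ⟨j, rfl⟩ := hx
    rw [tendsto_iff_norm_sub_tendsto_zero]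
    refine squeeze_zero' (Eventually.of_forall fun n => norm_nonneg _)
      ((eventually_ge_atTop j).mono fun n hn => hκ3 _ n (hfin n) _ (mem_image_of_mem e hn))
      tendsto_one_div_add_atTop_nhds_zero_nat
  have hC2 : ∀ x, (∀ φ ∈ Ψ U, φ x = 0) → ∀ n, C n x = 0 := fun x hx n =>
    hΦ2 _ n x fun φ hφ => hx φ (mem_iUnion₂.2 ⟨_, ⟨hfin n, by
      rw [he]; exact image_subset_range _ _⟩, mem_iUnion.2 ⟨n, hφ⟩⟩)
  let Z : Submodule ℝ X :=
    { carrier := {x | CauchySeq fun n => C n x}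
      add_mem' := fun {a b} ha hb => by
        obtain ⟨y, hy⟩ := cauchySeq_tendsto_of_complete ha
        obtain ⟨z, hz⟩ := cauchySeq_tendsto_of_complete hb
        simpa using (hy.add hz).cauchySeq
      zero_mem' := by simpa using cauchySeq_const (0 : Y)
      smul_mem' := fun t x hx => by
        obtain ⟨y, hy⟩ := cauchySeq_tendsto_of_complete hx
        simpa using (hy.const_smul t).cauchySeq }
  have hM : 0 ≤ M := (norm_nonneg _).trans (hκ2 ∅ 0)
  have hall : ∀ x, CauchySeq fun n => C n x := fun x => by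
    have hx : x ∈ closure (Z : Set X) := by
      refine mem_closure_of_dual Z x fun f hf => ?_
      have h1 : f ∈ closure (Submodule.span ℝ (Ψ U) : Set (StrongDual ℝ X)) := by
        refine mem_closure_of_dual _ f fun ψ hψ => ?_
        obtain ⟨y, rfl⟩ := hR ψ
        refine hf y ?_
        have h2 := hC2 y fun φ hφ => hψ φ (Submodule.subset_span hφ)
        change CauchySeq fun n => C n y
        simpa [h2] using cauchySeq_const (0 : Y)
      have h2 : IsClosed {g : StrongDual ℝ X | ‖g‖ ≤ 2 * ‖g - f‖} :=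
        isClosed_le continuous_norm (by fun_prop)
      have h3 : ‖f‖ ≤ 2 * ‖f - f‖ := by
        refine closure_minimal (fun g hg => ?_) h2 h1
        have h4 := Submodule.span_mono hΨU hg
        rw [Submodule.span_iUnion, Submodule.mem_iSup_of_directed _
          (Monotone.directed_le fun m n hmn => Submodule.span_mono (hΨm (hGm hmn)))] at h4
        obtain ⟨m, hm⟩ := h4
        refine hΓ2 (G m) f (fun y hy => hf y (hC1 y ?_).cauchySeq) g hm
        exact mem_iUnion.2 ⟨m + 1, by rw [hGs]; exact Or.inr hy⟩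
      have h4 : f = 0 := by simpa using h3
      simp [h4]
    refine Metric.cauchySeq_iff.2 fun ε hε => ?_
    obtain ⟨z, hz, hxz⟩ := Metric.mem_closure_iff.1 hx (ε / (4 * (M + 1))) (by positivity)
    obtain ⟨N, hN⟩ := Metric.cauchySeq_iff.1 hz (ε / 2) (half_pos hε)
    refine ⟨N, fun m hm n hn => ?_⟩
    have h1 := hN m hm n hn
    have h2 : ∀ k, dist (C k x) (C k z) ≤ ε / 4 := fun k => by
      rw [dist_eq_norm, ← map_sub]
      refine ((C k).le_of_opNorm_le (hκ2 _ k) _).trans ?_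
      rw [dist_eq_norm, lt_div_iff₀ (by positivity)] at hxz
      nlinarith [norm_nonneg (x - z)]
    have h3 := dist_triangle4 (C m x) (C m z) (C n z) (C n x)
    have h4 := h2 m
    have h5 := h2 n
    rw [dist_comm] at h5
    linarith
  choose s hs using fun x => cauchySeq_tendsto_of_complete (hall x)
  let S : X →L[ℝ] Y := ContinuousLinearMap.ofTendstoOfBoundedRange s C (tendsto_pi_nhds.2 hs)
    (isBounded_iff_forall_norm_le.2 ⟨M, by rintro _ ⟨n, rfl⟩; exact hκ2 _ n⟩)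
  have hS : ∀ x, S x = s x := fun x => rfl
  exact ⟨C, S, fun n => hκ1 _ n, fun n => hκ2 _ n, hs,
    fun n => tendsto_nhds_unique (hs (v n)) (hC1 _ (hvU n))⟩

/-- Unit vectors with a functional that supports their image. -/
def Pr (T : X →L[ℝ] Y) : Type _ :=
  {p : X × StrongDual ℝ Y // ‖p.1‖ = 1 ∧ ‖p.2‖ ≤ 1 ∧ p.2 (T p.1) = 1}

lemma Pr.abs_le {T : X →L[ℝ] Y} (a : Pr T) (A : X →L[ℝ] Y) : |a.1.2 (A a.1.1)| ≤ ‖A‖ := by
  have h1 : ‖a.1.2 (A a.1.1)‖ ≤ 1 * ‖A a.1.1‖ := a.1.2.le_of_opNorm_le a.2.2.1 _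
  rw [one_mul] at h1
  exact h1.trans (A.unit_le_opNorm _ a.2.1.le)

lemma Pr.exists {T : X →L[ℝ] Y} (hT : ∀ x, ‖T x‖ = ‖x‖) {x : X} (hx : ‖x‖ = 1) :
    ∃ a : Pr T, a.1.1 = x := by
  obtain ⟨g, hg, hg'⟩ := exists_dual_vector'' ℝ (T x)
  exact ⟨⟨(x, g), hx, hg, by simpa [hT, hx] using hg'⟩, rfl⟩

lemma att (T : X →L[ℝ] Y) (hT : ∀ x, ‖T x‖ = ‖x‖) (h : BhatiaSemrl T) (A : X →L[ℝ] Y) :
    ∃ a : Pr T, ∀ b : Pr T, b.1.2 (A b.1.1) ≤ a.1.2 (A a.1.1) := by
  obtain ⟨x₀, hx₀, -⟩ := h 0 fun t => by simp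
  obtain ⟨a₀, -⟩ := Pr.exists hT hx₀
  have : Nonempty (Pr T) := ⟨a₀⟩
  have hT1 : ‖T‖ ≤ 1 := T.opNorm_le_bound zero_le_one fun x => by simp [hT]
  have hb : BddAbove (range fun b : Pr T => b.1.2 (A b.1.1)) :=
    ⟨‖A‖, by rintro _ ⟨b, rfl⟩; exact (abs_le.1 (b.abs_le A)).2⟩
  set s := ⨆ b : Pr T, b.1.2 (A b.1.1)
  have h1 : ∀ (t : ℝ) (b : Pr T), 1 + t * (b.1.2 (A b.1.1) - s) ≤ ‖T + t • (A - s • T)‖ :=
    fun t b => by
      refine le_trans (le_of_eq ?_) (le_abs_self _ |>.trans (b.abs_le _))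
      simp [b.2.2.2]
  obtain ⟨x, hx, -, h2⟩ := h (A - s • T) fun t => by
    refine hT1.trans ?_
    rcases le_or_gt t 0 with ht | ht
    · exact le_trans (le_add_of_nonneg_right (mul_nonneg_of_nonpos_of_nonpos ht
        (sub_nonpos.2 (le_ciSup hb a₀)))) (h1 t a₀)
    · refine le_of_forall_pos_le_add fun η hη => ?_
      obtain ⟨b, hb'⟩ := exists_lt_of_lt_ciSup (sub_lt_self s (div_pos hη ht))
      have h3 := h1 t b
      have h4 : t * (η / t) = η := mul_div_cancel₀ _ ht.ne'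
      nlinarith
  obtain ⟨g, hg1, hg2, hg3⟩ := exists_dual_of_BJ h2
  rw [hT, hx] at hg2
  refine ⟨⟨(x, g), hx, hg1, hg2⟩, fun b => (le_ciSup hb b).trans (le_of_eq ?_)⟩
  rw [sub_apply, smul_apply, map_sub, map_smul, hg2,
    smul_eq_mul, mul_one, sub_eq_zero] at hg3
  exact hg3.symm

theorem not_BS [CompleteSpace X] [CompleteSpace Y] (E : Submodule ℝ X)
    (hE : ¬ FiniteDimensional ℝ E) (T : X →L[ℝ] Y) (hT : ∀ x, ‖T x‖ = ‖x‖) (S₀ : X →L[ℝ] Y)
    (hS₀ : ∀ x ∈ E, S₀ x = T x) {M : ℝ}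
    (h : ∀ F : Set X, F.Finite → ∀ ε : ℝ, 0 < ε →
      ∃ K : X →L[ℝ] Y, IsCompactOperator K ∧ ‖K‖ ≤ M ∧ ∀ x ∈ F, ‖K x - S₀ x‖ ≤ ε) :
    ¬ BhatiaSemrl T := by
  intro hBS
  obtain ⟨R, w, -, hv, hsep⟩ := exists_seq_norm_le_one_le_norm_sub hE
  let v : ℕ → X := fun n => w n
  replace hv : ∀ n, ‖v n‖ ≤ R := hv
  replace hsep : Pairwise fun m n => 1 ≤ ‖v m - v n‖ := hsep
  obtain ⟨C, S, hC1, hC2, hC3, hS⟩ := exists_seq (refl_of_att (att_of_BS T hT hBS)) S₀ h v
  replace hS : ∀ n, S (v n) = T (v n) := fun n => (hS n).trans (hS₀ _ (w n).2)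
  have hM : 0 ≤ M := (norm_nonneg _).trans (hC2 0)
  set L : ℝ := ‖S‖ + M + 1 with hL
  have hL0 : 0 < L := by positivity
  let D : ℕ → X →L[ℝ] Y := fun n => L⁻¹ • (S - C n)
  have hD1 : ∀ n, ‖D n‖ ≤ 1 := fun n => by
    have h1 : ‖S - C n‖ ≤ L := (norm_sub_le _ _).trans (by linarith [hC2 n])
    have h2 : ‖D n‖ ≤ ‖L⁻¹‖ * ‖S - C n‖ := ContinuousLinearMap.opNorm_smul_le _ _
    rw [Real.norm_of_nonneg (by positivity)] at h2
    refine h2.trans ?_
    rw [inv_mul_le_iff₀ hL0, mul_one]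
    exact h1
  let ev : Pr T → (X →L[ℝ] Y) →L[ℝ] ℝ := fun a =>
    a.1.2.comp (ContinuousLinearMap.apply ℝ Y a.1.1)
  have hev : ∀ a u, ev a u = a.1.2 (u a.1.1) := fun a u => rfl
  let σ : (X →L[ℝ] Y) → ℝ := fun u => ⨆ a, ev a u
  have hbdd : ∀ u, BddAbove (range fun a => ev a u) := fun u =>
    ⟨‖u‖, by rintro _ ⟨b, rfl⟩; exact (abs_le.1 (b.abs_le u)).2⟩
  let B : ℕ → Set (X →L[ℝ] Y) := fun k => closure (convexHull ℝ (D '' Ici k))
  set θ : ℝ := L⁻¹ / 2 with hθ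
  have hθ0 : 0 < θ := by positivity
  have hcomp : ∀ u ∈ B 0, IsCompactOperator (S - L • u : X →L[ℝ] Y) := by
    intro u hu
    have h1 : IsClosed {u : X →L[ℝ] Y | IsCompactOperator (S - L • u : X →L[ℝ] Y)} :=
      isClosed_setOfPred_isCompactOperator.preimage (f := fun u : X →L[ℝ] Y => S - L • u)
        (by fun_prop)
    refine closure_minimal (convexHull_min ?_ ?_) h1 hu
    · rintro _ ⟨n, -, rfl⟩
      have : S - L • D n = C n := by
        simp only [D]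
        rw [smul_inv_smul₀ hL0.ne', sub_sub_cancel]
      change IsCompactOperator (S - L • D n : X →L[ℝ] Y)
      rw [this]
      exact hC1 n
    · intro a ha b hb s t hs ht hst
      have h2 : S - L • (s • a + t • b) = s • (S - L • a) + t • (S - L • b) := by
        have h3 : S = (s + t) • S := by rw [hst, one_smul]
        conv_lhs => rw [h3]
        module
      change IsCompactOperator (S - L • (s • a + t • b) : X →L[ℝ] Y)
      rw [h2]
      exact (compactOperator (RingHom.id ℝ) X Y).add_mem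
        ((compactOperator (RingHom.id ℝ) X Y).smul_mem s ha)
        ((compactOperator (RingHom.id ℝ) X Y).smul_mem t hb)
  have hθσ : ∀ u ∈ B 0, θ ≤ σ u := by
    intro u hu
    obtain ⟨m, n, h1, h2⟩ := exists_small v hv hsep _ (hcomp u hu)
    have h0 : 0 < ‖v m - v n‖ := by linarith
    obtain ⟨a, ha⟩ := Pr.exists hT (x := ‖v m - v n‖⁻¹ • (v m - v n))
      (norm_smul_inv_norm (norm_pos_iff.1 h0))
    refine le_trans ?_ (le_ciSup (hbdd u) a)
    have h3 : S a.1.1 = T a.1.1 := by rw [ha, map_smul, map_smul, map_sub, map_sub, hS, hS]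
    have h4 : ‖(S - L • u) a.1.1‖ ≤ 1 / 2 := by
      rw [ha, map_smul, norm_smul, Real.norm_of_nonneg (by positivity), inv_mul_le_iff₀ h0]
      linarith
    have h5 : ‖a.1.2 ((S - L • u) a.1.1)‖ ≤ 1 * ‖(S - L • u) a.1.1‖ :=
      a.1.2.le_of_opNorm_le a.2.2.1 _
    have h6 : a.1.2 ((S - L • u) a.1.1) = 1 - L * ev a u := by
      rw [sub_apply, smul_apply, map_sub, map_smul, h3,
        a.2.2.2, smul_eq_mul, hev]
    rw [h6, Real.norm_eq_abs, one_mul] at h5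
    have h7 := (abs_le.1 (h5.trans h4)).2
    rw [hθ, div_le_iff₀ two_pos, inv_le_iff_one_le_mul₀' hL0]
    linarith
  have hB1 : ∀ k, ∀ g ∈ B k, ‖g‖ ≤ 1 := fun k g hg => by
    have := closure_minimal (t := Metric.closedBall 0 1)
      (convexHull_min (s := D '' Ici k) (by rintro _ ⟨j, -, rfl⟩; simpa using hD1 j)
      (convex_closedBall 0 1)) Metric.isClosed_closedBall hg
    simpa using this
  obtain ⟨r, hrB, hr⟩ := simons_core (fun u => max θ (σ u)) B (fun k => isClosed_closure)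
    (fun k => (convex_convexHull ℝ _).closure)
    (fun k => ((nonempty_Ici (a := k)).image D).convexHull.closure)
    (fun k => closure_mono (convexHull_mono (image_mono (Ici_subset_Ici.2 (Nat.le_succ k))))) hB1
    θ (fun u => le_max_left _ _) (half_pos hθ0)
  obtain ⟨a, ha⟩ := att T hT hBS (r 0)
  have : Nonempty (Pr T) := ⟨a⟩
  have hσr : σ (r 0) ≤ ev a (r 0) := ciSup_le ha
  have h3 := hr (ev a) 0 (fun u _ => le_max_of_le_right (by
      rw [sub_zero]; exact le_ciSup (hbdd u) a))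
    (by rw [sub_zero]; exact max_le ((hθσ _ (hrB 0)).trans hσr) hσr)
  have h4 : Tendsto (fun n => ev a (D n)) atTop (𝓝 0) := by
    have h5 : Tendsto (fun n => a.1.2 (L⁻¹ • (S a.1.1 - C n a.1.1))) atTop
        (𝓝 (a.1.2 (L⁻¹ • (S a.1.1 - S a.1.1)))) :=
      (a.1.2.continuous.tendsto _).comp (((hC3 _).const_sub _).const_smul _)
    rw [sub_self, smul_zero, map_zero] at h5
    exact h5
  obtain ⟨k, hk⟩ := eventually_atTop.1 (h4.eventually (gt_mem_nhds (show 0 < θ / 4 by positivity)))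
  have h5 : ev a (r k) ≤ θ / 4 :=
    le_of_mem_closure_hull _ (by rintro _ ⟨j, hj, rfl⟩; exact (hk j hj).le) (hrB k)
  have h6 := h3 k
  have h7 := (hθσ _ (hrB 0)).trans hσr
  linarith

/-- The case of a range space with the bounded compact approximation property. -/
theorem not_BS_of_range [CompleteSpace X] [CompleteSpace Y] (hX : ¬ FiniteDimensional ℝ X) {M : ℝ}
    (hY : ∀ F : Set Y, F.Finite → ∀ ε : ℝ, 0 < ε →
      ∃ K : Y →L[ℝ] Y, IsCompactOperator K ∧ ‖K‖ ≤ M ∧ ∀ y ∈ F, ‖K y - y‖ ≤ ε)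
    (T : X →L[ℝ] Y) (hT : ∀ x, ‖T x‖ = ‖x‖) : ¬ BhatiaSemrl T := by
  refine not_BS ⊤ (fun _ => hX (Submodule.topEquiv (R := ℝ) (M := X)).finiteDimensional) T hT T
    (fun _ _ => rfl) (M := M) fun F hF ε hε => ?_
  obtain ⟨K, h1, h2, h3⟩ := hY (T '' F) (hF.image T) ε hε
  refine ⟨K.comp T, h1.comp_clm T, ?_, fun x hx => h3 _ (mem_image_of_mem T hx)⟩
  refine ContinuousLinearMap.opNorm_le_bound _ ((norm_nonneg _).trans h2) fun x => ?_
  rw [← hT x]
  exact K.le_of_opNorm_le h2 _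

end Pool.Agent.FS.RangeApprox
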