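import Pool.Agent.FS.RangeApprox.Main

set_option autoImplicit false

/-!
On a reflexive domain, approximation by compact operators uniformly on compact sets gives
approximation by uniformly bounded compact operators.
-/

namespace Pool.Agent.FS.RangeApprox

open Set Filter Topology Pool.Agent.Lib.MP_43cf21_an

section HB

variable {V : Type*} [NormedAddCommGroup V] [NormedSpace ℝ V]

lemma exists_norming' (Ψ : Set (StrongDual ℝ V)) (hΨ : Ψ.Countable) :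
    ∃ Γ : Set V, Γ.Countable ∧ (∀ x ∈ Γ, ‖x‖ ≤ 1) ∧ ∀ (f : StrongDual ℝ V) (t : ℝ),
      (∀ x ∈ Γ, |f x| ≤ t) → ∀ g ∈ Submodule.span ℝ Ψ, ‖g‖ ≤ 2 * (t + ‖g - f‖) := by
  obtain ⟨c, hc, hc'⟩ := hΨ.isSeparable.span (R := ℝ)
  have h1 : ∀ d : StrongDual ℝ V, ∃ x : V, ‖x‖ ≤ 1 ∧ ‖d‖ ≤ 2 * ‖d x‖ := fun d => by
    rcases (norm_nonneg d).eq_or_lt with h | h
    · exact ⟨0, by simp, by rw [← h]; positivity⟩
    · obtain ⟨x, hx, hx'⟩ := d.exists_lt_apply_of_lt_opNorm (half_lt_self h)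
      exact ⟨x, hx.le, by linarith⟩
  choose p hp1 hp2 using h1
  refine ⟨p '' c, hc.image p, by rintro _ ⟨d, -, rfl⟩; exact hp1 d, fun f t hf g hg => ?_⟩
  have h2 : IsClosed {g : StrongDual ℝ V | ‖g‖ ≤ 2 * (t + ‖g - f‖)} :=
    isClosed_le continuous_norm (by fun_prop)
  refine closure_minimal (fun d hd => ?_) h2 (hc' hg)
  have h3 : ‖(d - f) (p d)‖ ≤ ‖d - f‖ := (d - f).unit_le_opNorm _ (hp1 d)
  have h4 := hf _ (mem_image_of_mem p hd)
  have h5 := hp2 d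
  rw [sub_apply, Real.norm_eq_abs] at h3
  rw [Real.norm_eq_abs] at h5
  have h6 := abs_sub_abs_le_abs_sub (d (p d)) (f (p d))
  change ‖d‖ ≤ 2 * (t + ‖d - f‖)
  linarith

/-- Splitting of a functional dominated on a subspace by a sum of two seminorms. -/
lemma exists_split {Z : Type*} [NormedAddCommGroup Z] [NormedSpace ℝ Z] (M : Submodule ℝ V)
    (R : V →ₗ[ℝ] Z) (ψ : V →L[ℝ] ℝ) (h : ∀ v ∈ M, ψ v ≤ 24 * ‖R v‖ + ‖v‖ / 4) :
    ∃ q : V →L[ℝ] ℝ, (∀ v, |q v| ≤ ‖v‖) ∧ ∀ v ∈ M, |ψ v - 1 / 4 * q v| ≤ 24 * ‖R v‖ := by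
  let D : Submodule ℝ (V × V) := M.map (LinearMap.prod LinearMap.id LinearMap.id)
  obtain ⟨g, g1, g2⟩ := exists_extension_of_le_sublinear
    (⟨D, ((ψ : V →ₗ[ℝ] ℝ).comp (LinearMap.snd ℝ V V)).comp D.subtype⟩ : (V × V) →ₗ.[ℝ] ℝ)
    (fun z => 24 * ‖R z.1‖ + ‖z.2‖ / 4)
    (fun c hc z => by
      simp only [Prod.smul_fst, Prod.smul_snd, map_smul, norm_smul, Real.norm_of_nonneg hc.le]
      ring)
    (fun z w => by
      have h1 := norm_add_le (R z.1) (R w.1)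
      have h2 := norm_add_le z.2 w.2
      simp only [Prod.fst_add, Prod.snd_add, map_add]
      linarith)
    (by
      rintro ⟨_, v, hv, rfl⟩
      exact h v hv)
  have g3 : ∀ z : V × V, |g z| ≤ 24 * ‖R z.1‖ + ‖z.2‖ / 4 := fun z => by
    have h1 := g2 z
    have h2 := g2 (-z)
    simp only [map_neg, Prod.fst_neg, Prod.snd_neg, norm_neg] at h2
    exact abs_le.2 ⟨by linarith, h1⟩
  have g4 : ∀ v, |4 * g (0, v)| ≤ ‖v‖ := fun v => by
    have h1 := g3 (0, v)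
    simp only [map_zero, norm_zero, mul_zero, zero_add] at h1
    rw [abs_mul, abs_of_pos (by norm_num : (0 : ℝ) < 4)]
    linarith
  refine ⟨((4 : ℝ) • g.comp (LinearMap.inr ℝ V V)).mkContinuous 1 fun v => by
    rw [one_mul]; exact g4 v, g4, fun v hv => ?_⟩
  have h1 : g (v, v) = ψ v := g1 ⟨(v, v), v, hv, rfl⟩
  have h2 : g (v, v) = g (v, 0) + g (0, v) := by rw [← map_add]; simp
  have h3 := g3 (v, 0)
  simp only [norm_zero, zero_div, add_zero] at h3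
  change |ψ v - 1 / 4 * (4 * g (0, v))| ≤ _
  rw [show ψ v - 1 / 4 * (4 * g (0, v)) = g (v, 0) by linarith]
  exact h3

end HB

variable {X Y : Type*} [NormedAddCommGroup X] [NormedSpace ℝ X] [NormedAddCommGroup Y]
  [NormedSpace ℝ Y]

/-- Compact operators on a reflexive space attain their norm. -/
lemma exists_attain (hR : Function.Surjective (NormedSpace.inclusionInDoubleDual ℝ X))
    (K : X →L[ℝ] Y) (hK : IsCompactOperator K) :
    ∃ (x : X) (g : StrongDual ℝ Y), ‖x‖ ≤ 1 ∧ ‖g‖ ≤ 1 ∧ ‖K‖ ≤ g (K x) := by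
  have hQ : IsCompact (closure (K '' Metric.closedBall 0 1)) :=
    IsCompactOperator.isCompact_closure_image_closedBall (f := (K : X →ₗ[ℝ] Y)) hK 1
  obtain ⟨y, hy, hy'⟩ := hQ.exists_isMaxOn ⟨K 0, subset_closure ⟨0, by simp, rfl⟩⟩
    continuous_norm.continuousOn
  have h1 : ‖K‖ ≤ ‖y‖ := ContinuousLinearMap.opNorm_le_of_unit_norm (norm_nonneg _) fun x hx =>
    hy' (subset_closure ⟨x, by simp [hx], rfl⟩)
  obtain ⟨g, hg, hg'⟩ := exists_dual_vector'' ℝ y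
  have h2 : g y ≤ ‖g.comp K‖ := by
    refine closure_minimal (t := {z : Y | g z ≤ ‖g.comp K‖}) ?_
      (isClosed_le g.continuous continuous_const) hy
    rintro _ ⟨x, hx, rfl⟩
    exact (le_abs_self _).trans ((g.comp K).unit_le_opNorm x (by simpa using hx))
  obtain ⟨Θ, h3, h4⟩ := exists_dual_vector'' ℝ (g.comp K)
  obtain ⟨x, rfl⟩ := hR Θ
  refine ⟨x, g, ?_, hg, ?_⟩
  · rwa [← (NormedSpace.inclusionInDoubleDualLi ℝ (E := X)).norm_map x]
  · have h5 : g (K x) = ‖g.comp K‖ := h4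
    have h6 : g y = ‖y‖ := hg'
    linarith

/-- Separable reduction with a norm bound. -/
lemma exists_seq' (hR : Function.Surjective (NormedSpace.inclusionInDoubleDual ℝ X))
    (κ : Set X → X →L[ℝ] Y) (hκ1 : ∀ F, IsCompactOperator (κ F)) (hκ2 : ∀ F, ‖κ F‖ ≤ 1)
    (hκ3 : ∀ F : Set X, F.Finite → (∀ x ∈ F, ‖x‖ ≤ 1) → ∀ x ∈ F, ‖κ F x‖ ≤ 1 / 32) :
    ∃ F : ℕ → Set X, ∀ (x : X) (g : StrongDual ℝ Y), ‖x‖ ≤ 1 → ‖g‖ ≤ 1 →
      ∀ᶠ n in atTop, g (κ (F n) x) ≤ 1 / 8 := by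
  choose Φ hΦ1 hΦ2 using fun F : Set X => exists_sep (κ F) (hκ1 F)
  let Ψ : Set X → Set (StrongDual ℝ X) := fun G =>
    ⋃ F ∈ {F : Set X | F.Finite ∧ F ⊆ G}, Φ F
  have hΨ : ∀ G : Set X, G.Countable → (Ψ G).Countable := fun G hG =>
    (countable_ofPred_finite_subset hG).biUnion fun F _ => hΦ1 F
  have hΨm : Monotone Ψ := fun G G' hG =>
    biUnion_subset_biUnion_left fun F hF => ⟨hF.1, hF.2.trans hG⟩
  choose Γ hΓ1 hΓ3 hΓ2 using
    fun G : {G : Set X // G.Countable} => exists_norming' (Ψ G.1) (hΨ _ G.2)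
  let G : ℕ → {G : Set X // G.Countable} := fun m =>
    Nat.rec ⟨{0}, countable_singleton 0⟩ (fun _ G => ⟨G.1 ∪ Γ G, G.2.union (hΓ1 G)⟩) m
  have hGs : ∀ m, (G (m + 1)).1 = (G m).1 ∪ Γ (G m) := fun m => rfl
  have hGm : Monotone fun m => (G m).1 :=
    monotone_nat_of_le_succ fun m => by rw [hGs]; exact subset_union_left
  have hG1 : ∀ m, ∀ x ∈ (G m).1, ‖x‖ ≤ 1 := fun m => by
    induction m with
    | zero =>
      intro x hx
      have : x = 0 := hx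
      simp [this]
    | succ m ih =>
      intro x hx
      rw [hGs] at hx
      exact hx.elim (ih x) (hΓ3 _ x)
  let U : Set X := ⋃ m, (G m).1
  have hU : U.Countable := countable_iUnion fun m => (G m).2
  have hU1 : ∀ x ∈ U, ‖x‖ ≤ 1 := fun x hx => by
    obtain ⟨m, hm⟩ := mem_iUnion.1 hx
    exact hG1 m x hm
  have hΨU : Ψ U ⊆ ⋃ m, Ψ (G m).1 := by
    intro φ hφ
    obtain ⟨F, ⟨hF, hFU⟩, hφ'⟩ := mem_iUnion₂.1 hφ
    obtain ⟨m, hm⟩ := hGm.directed_le.exists_mem_subset_of_finset_subset_biUnion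
      (s := hF.toFinset) (by simpa using hFU)
    exact mem_iUnion.2 ⟨m, mem_iUnion₂.2 ⟨F, ⟨hF, by simpa using hm⟩, hφ'⟩⟩
  obtain ⟨e, he⟩ := hU.exists_eq_range ⟨0, mem_iUnion.2 ⟨0, rfl⟩⟩
  have hfin : ∀ n : ℕ, (e '' Iic n).Finite := fun n => (finite_Iic n).image e
  have hsub : ∀ n : ℕ, e '' Iic n ⊆ U := fun n => by rw [he]; exact image_subset_range _ _
  have hC2 : ∀ x, (∀ φ ∈ Ψ U, φ x = 0) → ∀ n, κ (e '' Iic n) x = 0 := fun x hx n =>
    hΦ2 _ x fun φ hφ => hx φ (mem_iUnion₂.2 ⟨_, ⟨hfin n, hsub n⟩, hφ⟩)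
  refine ⟨fun n => e '' Iic n, fun x g hx hg => ?_⟩
  by_contra hno
  obtain ⟨s, hs, hs'⟩ := extraction_of_frequently_atTop (not_eventually.1 hno)
  obtain ⟨f, -, hf⟩ := exists_weak_limit (fun k => g.comp (κ (e '' Iic (s k)))) (M := 1) fun k =>
    (g.opNorm_comp_le _).trans (mul_le_one₀ hg (norm_nonneg _) (hκ2 _))
  have hhy : (hyperfilter ℕ : Filter ℕ) ≤ atTop := Nat.hyperfilter_le_atTop
  have f1 : 1 / 8 ≤ f x := ge_of_tendsto' (hf x) fun k => (not_le.1 (hs' k)).le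
  have f2 : ∀ y ∈ U, |f y| ≤ 1 / 32 := fun y hy => by
    rw [he] at hy
    obtain ⟨j, rfl⟩ := hy
    refine le_of_tendsto (hf (e j)).abs (hhy ((eventually_ge_atTop j).mono fun k hk => ?_))
    have h1 := hκ3 _ (hfin (s k)) (fun y hy => hU1 y (hsub _ hy)) (e j)
      (mem_image_of_mem e (hk.trans (hs.id_le k)))
    have h2 : ‖g (κ (e '' Iic (s k)) (e j))‖ ≤ 1 * ‖κ (e '' Iic (s k)) (e j)‖ :=
      g.le_of_opNorm_le hg _
    rw [one_mul] at h2
    exact h2.trans h1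
  have h1 : f ∈ closure (Submodule.span ℝ (Ψ U) : Set (StrongDual ℝ X)) := by
    refine mem_closure_of_dual _ f fun ψ hψ => ?_
    obtain ⟨y, rfl⟩ := hR ψ
    have h2 := hC2 y fun φ hφ => hψ φ (Submodule.subset_span hφ)
    refine tendsto_nhds_unique (hf y) ?_
    simp [h2]
  have h2 : IsClosed {d : StrongDual ℝ X | ‖d‖ ≤ 2 * (1 / 32 + ‖d - f‖)} :=
    isClosed_le continuous_norm (by fun_prop)
  have h3 : ‖f‖ ≤ 2 * (1 / 32 + ‖f - f‖) := by
    refine closure_minimal (fun d hd => ?_) h2 h1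
    have h4 := Submodule.span_mono hΨU hd
    rw [Submodule.span_iUnion, Submodule.mem_iSup_of_directed _
      (Monotone.directed_le fun m n hmn => Submodule.span_mono (hΨm (hGm hmn)))] at h4
    obtain ⟨m, hm⟩ := h4
    refine hΓ2 (G m) f _ (fun y hy => f2 y ?_) d hm
    exact mem_iUnion.2 ⟨m + 1, by rw [hGs]; exact Or.inr hy⟩
  rw [sub_self, norm_zero] at h3
  have h4 : |f x| ≤ ‖f‖ := f.unit_le_opNorm x hx
  linarith [le_abs_self (f x)]

/-- A functional of norm at most one on the compact operators is almost controlled by finitely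
many points of the unit ball. -/
lemma exists_fin [CompleteSpace Y]
    (hR : Function.Surjective (NormedSpace.inclusionInDoubleDual ℝ X))
    (ψ : (X →L[ℝ] Y) →L[ℝ] ℝ) (hψ : ∀ K : X →L[ℝ] Y, IsCompactOperator K → |ψ K| ≤ ‖K‖) :
    ∃ F : Set X, F.Finite ∧ (∀ x ∈ F, ‖x‖ ≤ 1) ∧ ∀ K : X →L[ℝ] Y, IsCompactOperator K →
      ∀ c : ℝ, 0 ≤ c → (∀ x ∈ F, ‖K x‖ ≤ c) → ψ K ≤ 24 * c + ‖K‖ / 4 := by
  by_contra hno
  push Not at hno
  have h1 : ∀ F : Set X, F.Finite → (∀ x ∈ F, ‖x‖ ≤ 1) → ∃ K : X →L[ℝ] Y, IsCompactOperator K ∧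
      ‖K‖ ≤ 1 ∧ 1 / 4 ≤ ψ K ∧ ∀ x ∈ F, ‖K x‖ ≤ 1 / 32 := fun F hF hF1 => by
    obtain ⟨K, hK, c, hc, h2, h3⟩ := hno F hF hF1
    have h4 := (le_abs_self _).trans (hψ K hK)
    have h5 : 0 < ‖K‖ := by linarith [norm_nonneg K]
    refine ⟨‖K‖⁻¹ • K, (compactOperator (RingHom.id ℝ) X Y).smul_mem _ hK, ?_, ?_, fun x hx => ?_⟩
    · refine (ContinuousLinearMap.opNorm_smul_le _ _).trans ?_
      rw [Real.norm_of_nonneg (by positivity), inv_mul_cancel₀ h5.ne']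
    · rw [map_smul, smul_eq_mul, le_inv_mul_iff₀ h5]
      linarith
    · rw [smul_apply, norm_smul, Real.norm_of_nonneg (by positivity), inv_mul_le_iff₀ h5]
      linarith [h2 x hx]
  have h2 : ∀ F : Set X, ∃ K : X →L[ℝ] Y, IsCompactOperator K ∧ ‖K‖ ≤ 1 ∧ 1 / 4 ≤ ψ K ∧
      (F.Finite → (∀ x ∈ F, ‖x‖ ≤ 1) → ∀ x ∈ F, ‖K x‖ ≤ 1 / 32) := fun F => by
    by_cases hF : F.Finite ∧ ∀ x ∈ F, ‖x‖ ≤ 1
    · obtain ⟨K, a1, a2, a3, a4⟩ := h1 F hF.1 hF.2
      exact ⟨K, a1, a2, a3, fun _ _ => a4⟩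
    · obtain ⟨K, a1, a2, a3, -⟩ := h1 ∅ finite_empty (by simp)
      exact ⟨K, a1, a2, a3, fun a b => absurd ⟨a, b⟩ hF⟩
  choose κ hκ1 hκ2 hκ4 hκ3 using h2
  obtain ⟨F, hF⟩ := exists_seq' hR κ hκ1 hκ2 hκ3
  let D : ℕ → X →L[ℝ] Y := fun n => κ (F n)
  let B : ℕ → Set (X →L[ℝ] Y) := fun k => closure (convexHull ℝ (D '' Ici k))
  have hB1 : ∀ k, ∀ g ∈ B k, ‖g‖ ≤ 1 := fun k g hg => by
    have := closure_minimal (t := Metric.closedBall 0 1)
      (convexHull_min (s := D '' Ici k) (by rintro _ ⟨j, -, rfl⟩; simpa using hκ2 _)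
      (convex_closedBall 0 1)) Metric.isClosed_closedBall hg
    simpa using this
  obtain ⟨r, hrB, hr⟩ := simons_core (fun u : X →L[ℝ] Y => ‖u‖) B (fun k => isClosed_closure)
    (fun k => (convex_convexHull ℝ _).closure)
    (fun k => ((nonempty_Ici (a := k)).image D).convexHull.closure)
    (fun k => closure_mono (convexHull_mono (image_mono (Ici_subset_Ici.2 (Nat.le_succ k))))) hB1
    0 (fun u => norm_nonneg u) (δ := 1 / 16) (by norm_num)
  have hc : IsCompactOperator (r 0) :=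
    closure_minimal (t := {u : X →L[ℝ] Y | IsCompactOperator u})
      (convexHull_min (by rintro _ ⟨j, -, rfl⟩; exact hκ1 _)
        (compactOperator (RingHom.id ℝ) X Y).convex) isClosed_setOfPred_isCompactOperator (hrB 0)
  have h3 : (-ψ) (r 0) ≤ -(1 / 4) :=
    le_of_mem_closure_hull (-ψ) (by rintro _ ⟨j, -, rfl⟩; exact neg_le_neg (hκ4 _)) (hrB 0)
  have h4 : 1 / 4 ≤ ‖r 0‖ := (neg_le_neg_iff.1 h3).trans ((le_abs_self _).trans (hψ _ hc))
  obtain ⟨x, g, hx, hg, hxg⟩ := exists_attain hR (r 0) hc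
  let l : (X →L[ℝ] Y) →L[ℝ] ℝ := g.comp (ContinuousLinearMap.apply ℝ Y x)
  have hl : ∀ u, l u = g (u x) := fun u => rfl
  have h5 := hr l 0 (fun u _ => by
      have h6 : ‖g (u x)‖ ≤ 1 * ‖u x‖ := g.le_of_opNorm_le hg _
      rw [sub_zero, hl]
      exact (le_abs_self _).trans (h6.trans (by rw [one_mul]; exact u.unit_le_opNorm x hx)))
    (by rw [sub_zero, hl]; exact hxg)
  obtain ⟨k, hk⟩ := eventually_atTop.1 (hF x g hx hg)
  have h6 : l (r k) ≤ 1 / 8 :=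
    le_of_mem_closure_hull _ (by rintro _ ⟨j, hj, rfl⟩; exact hk j hj) (hrB k)
  have h7 := h5 k
  rw [hl (r 0)] at h7
  linarith

/-- Evaluation at the points of a set. -/
noncomputable def evs (Y : Type*) [NormedAddCommGroup Y] [NormedSpace ℝ Y] (F : Set X) :
    (X →L[ℝ] Y) →L[ℝ] (F → Y) :=
  ContinuousLinearMap.pi fun x : F => ContinuousLinearMap.apply ℝ Y (x : X)

lemma evs_apply (F : Set X) (A : X →L[ℝ] Y) (x : F) : evs Y F A x = A x := rfl

lemma exists_control [CompleteSpace X] [CompleteSpace Y]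
    (hR : Function.Surjective (NormedSpace.inclusionInDoubleDual ℝ X))
    (u : (X →L[ℝ] Y) →L[ℝ] ℝ) (hu : ∀ K : X →L[ℝ] Y, IsCompactOperator K → |u K| ≤ ‖K‖) :
    ∃ Q : Set X, IsCompact Q ∧ (∀ x ∈ Q, ‖x‖ ≤ 1) ∧ ∀ A : X →L[ℝ] Y, IsCompactOperator A →
      ∀ c : ℝ, 0 ≤ c → (∀ x ∈ Q, ‖A x‖ ≤ c) → |u A| ≤ 48 * c := by
  have step : ∀ p : {u : (X →L[ℝ] Y) →L[ℝ] ℝ // ∀ K : X →L[ℝ] Y, IsCompactOperator K → |u K| ≤ ‖K‖},
      ∃ q : {u : (X →L[ℝ] Y) →L[ℝ] ℝ // ∀ K : X →L[ℝ] Y, IsCompactOperator K → |u K| ≤ ‖K‖},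
        ∃ F : Set X, F.Finite ∧ (∀ x ∈ F, ‖x‖ ≤ 1) ∧ ∀ A : X →L[ℝ] Y, IsCompactOperator A →
          ∀ c : ℝ, 0 ≤ c → (∀ x ∈ F, ‖A x‖ ≤ c) → |p.1 A - (1 / 4) * q.1 A| ≤ 24 * c := by
    rintro ⟨p, hp⟩
    obtain ⟨F, h1, h2, h3⟩ := exists_fin hR p hp
    have := h1.fintype
    obtain ⟨q, q1, q2⟩ := exists_split (compactOperator (RingHom.id ℝ) X Y)
      (evs Y F : (X →L[ℝ] Y) →ₗ[ℝ] (F → Y)) p fun K hK =>
        h3 K hK _ (norm_nonneg _) fun x hx => norm_le_pi_norm (evs Y F K) ⟨x, hx⟩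
    refine ⟨⟨q, fun K _ => q1 K⟩, F, h1, h2, fun A hA c hc h => (q2 A hA).trans ?_⟩
    have h4 : ‖evs Y F A‖ ≤ c := (pi_norm_le_iff_of_nonneg hc).2 fun x => h x x.2
    exact mul_le_mul_of_nonneg_left h4 (by norm_num)
  choose q F h1 h2 h3 using step
  let P : ℕ → {u : (X →L[ℝ] Y) →L[ℝ] ℝ // ∀ K : X →L[ℝ] Y, IsCompactOperator K → |u K| ≤ ‖K‖} :=
    fun n => q^[n] ⟨u, hu⟩
  have hP : ∀ n, P (n + 1) = q (P n) := fun n => Function.iterate_succ_apply' _ _ _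
  have hlim : Tendsto (fun n : ℕ => (1 / 2 : ℝ) ^ n) atTop (𝓝 0) :=
    tendsto_pow_atTop_nhds_zero_of_lt_one (by norm_num) (by norm_num)
  refine ⟨closure (⋃ n, (fun x => (1 / 2 : ℝ) ^ n • x) '' F (P n)),
    (TotallyBounded.closure ?_).isCompact_of_isClosed isClosed_closure, fun x hx => ?_,
    fun A hAc c hc hA => ?_⟩
  · refine Metric.totallyBounded_iff.2 fun ε hε => ?_
    obtain ⟨m, hm⟩ := eventually_atTop.1 (hlim.eventually (gt_mem_nhds hε))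
    refine ⟨insert 0 (⋃ n ∈ Iio m, (fun x => (1 / 2 : ℝ) ^ n • x) '' F (P n)),
      ((finite_Iio m).biUnion fun n _ => (h1 _).image _).insert 0, fun y hy => ?_⟩
    obtain ⟨n, x, hx, rfl⟩ := mem_iUnion.1 hy
    rcases lt_or_ge n m with hn | hn
    · exact mem_biUnion (Or.inr (mem_biUnion hn ⟨x, hx, rfl⟩)) (Metric.mem_ball_self hε)
    · refine mem_biUnion (mem_insert _ _) ?_
      rw [mem_ball_zero_iff, norm_smul, Real.norm_of_nonneg (by positivity)]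
      exact (mul_le_of_le_one_right (by positivity) (h2 _ x hx)).trans_lt (hm n hn)
  · refine closure_minimal (t := {x : X | ‖x‖ ≤ 1}) (fun y hy => ?_)
      (isClosed_le continuous_norm continuous_const) hx
    obtain ⟨n, x, hx, rfl⟩ := mem_iUnion.1 hy
    change ‖(1 / 2 : ℝ) ^ n • x‖ ≤ 1
    rw [norm_smul, Real.norm_of_nonneg (by positivity)]
    exact mul_le_one₀ (pow_le_one₀ (by norm_num) (by norm_num)) (norm_nonneg _) (h2 _ x hx)
  · have h4 : ∀ n, |u A - (1 / 2) ^ n * (1 / 2) ^ n * (P n).1 A| ≤ 48 * c * (1 - (1 / 2) ^ n) := by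
      intro n
      induction n with
      | zero => simp [P]
      | succ n ih =>
        have hn : (0 : ℝ) < (1 / 2) ^ n := by positivity
        have h5 := h3 (P n) (((1 / 2 : ℝ) ^ n) • A)
          ((compactOperator (RingHom.id ℝ) X Y).smul_mem _ hAc) c hc fun x hx => by
          have := hA _ (subset_closure (mem_iUnion.2 ⟨n, x, hx, rfl⟩))
          simpa using this
        rw [← hP, map_smul, map_smul, smul_eq_mul, smul_eq_mul, abs_le] at h5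
        rw [abs_le] at ih ⊢
        rw [pow_succ]
        constructor <;> nlinarith
    refine ge_of_tendsto' (x := atTop) (f := fun n : ℕ => 48 * c + (1 / 2) ^ n * ‖A‖)
      (by simpa using (hlim.mul_const ‖A‖).const_add (48 * c)) fun n => ?_
    have h5 := h4 n
    have hn : (0 : ℝ) < (1 / 2) ^ n := by positivity
    have hn1 : (1 / 2 : ℝ) ^ n ≤ 1 := pow_le_one₀ (by norm_num) (by norm_num)
    have h6 : |(P n).1 A| ≤ ‖A‖ := (P n).2 A hAc
    have h7 : |(1 / 2) ^ n * (1 / 2) ^ n * (P n).1 A| ≤ (1 / 2) ^ n * ‖A‖ := by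
      rw [abs_mul, abs_of_pos (mul_pos hn hn), mul_assoc]
      refine mul_le_mul_of_nonneg_left ?_ hn.le
      nlinarith [abs_nonneg ((P n).1 A)]
    have h8 := abs_sub_abs_le_abs_sub (u A) ((1 / 2) ^ n * (1 / 2) ^ n * (P n).1 A)
    nlinarith

/-- From uniform approximation on compact sets to bounded approximation on finite sets. -/
lemma bounded_of_compact [CompleteSpace X] [CompleteSpace Y]
    (hR : Function.Surjective (NormedSpace.inclusionInDoubleDual ℝ X)) (S : X →L[ℝ] Y)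
    (h : ∀ Q : Set X, IsCompact Q → ∀ ε : ℝ, 0 < ε →
      ∃ K : X →L[ℝ] Y, IsCompactOperator K ∧ ∀ x ∈ Q, ‖K x - S x‖ ≤ ε)
    (F : Set X) (hF : F.Finite) (ε : ℝ) (hε : 0 < ε) :
    ∃ K : X →L[ℝ] Y, IsCompactOperator K ∧ ‖K‖ ≤ 48 * (‖S‖ + 1) ∧ ∀ x ∈ F, ‖K x - S x‖ ≤ ε := by
  have := hF.fintype
  set M : ℝ := 48 * (‖S‖ + 1) with hM
  have hM0 : 0 < M := by positivity
  let C : Set (F → Y) := evs Y F '' ((compactOperator (RingHom.id ℝ) X Y : Set (X →L[ℝ] Y)) ∩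
    Metric.closedBall 0 M)
  have hC : Convex ℝ C := ((compactOperator (RingHom.id ℝ) X Y).convex.inter
    (convex_closedBall 0 M)).linear_image (evs Y F : (X →L[ℝ] Y) →ₗ[ℝ] (F → Y))
  have key : evs Y F S ∈ closure C := by
    by_contra hno
    obtain ⟨Θ, c, h1, h2⟩ := geometric_hahn_banach_closed_point hC.closure isClosed_closure hno
    have h3 : ∀ K : X →L[ℝ] Y, IsCompactOperator K → ‖K‖ ≤ M → Θ (evs Y F K) < c := fun K hK hn =>
      h1 _ (subset_closure ⟨K, ⟨hK, by simpa using hn⟩, rfl⟩)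
    have hc : 0 < c := by simpa using h3 0 isCompactOperator_zero (by simpa using hM0.le)
    have h4 : ∀ K : X →L[ℝ] Y, IsCompactOperator K → M / c * Θ (evs Y F K) ≤ ‖K‖ := fun K hK => by
      rcases (norm_nonneg K).eq_or_lt with h0 | h0
      · rw [norm_eq_zero.1 h0.symm]; simp
      · have h5 := h3 ((M / ‖K‖) • K) ((compactOperator (RingHom.id ℝ) X Y).smul_mem _ hK) (by
          refine (ContinuousLinearMap.opNorm_smul_le _ _).trans ?_
          rw [Real.norm_of_nonneg (by positivity), div_mul_cancel₀ _ h0.ne'])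
        rw [map_smul, map_smul, smul_eq_mul, div_mul_eq_mul_div, div_lt_iff₀ h0] at h5
        rw [div_mul_eq_mul_div, div_le_iff₀ hc]
        linarith
    obtain ⟨Q, hQ, hQ1, hQ2⟩ := exists_control hR ((M / c) • Θ.comp (evs Y F)) fun K hK => by
      have h5 := h4 K hK
      have h6 := h4 (-K) ((compactOperator (RingHom.id ℝ) X Y).neg_mem hK)
      rw [map_neg, map_neg, ContinuousLinearMap.opNorm_neg] at h6
      change |M / c * Θ (evs Y F K)| ≤ ‖K‖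
      exact abs_le.2 ⟨by linarith, h5⟩
    refine absurd h2 (not_lt.2 (le_of_forall_pos_le_add fun η hη => ?_))
    obtain ⟨K, hK, hK'⟩ := h (Q ∪ F) (hQ.union hF.isCompact) (min 1 (η / (‖Θ‖ + 1)))
      (lt_min one_pos (by positivity))
    have h5 := hQ2 K hK (‖S‖ + 1) (by positivity) fun x hx => by
      have h6 := (hK' x (Or.inl hx)).trans (min_le_left _ _)
      have h7 := S.unit_le_opNorm x (hQ1 x hx)
      have h8 := norm_le_norm_add_norm_sub' (K x) (S x)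
      linarith
    have h6 : M / c * Θ (evs Y F K) ≤ M := (le_abs_self _).trans h5
    rw [div_mul_eq_mul_div, div_le_iff₀ hc, mul_le_mul_iff_right₀ hM0] at h6
    have h7 : ‖evs Y F S - evs Y F K‖ ≤ η / (‖Θ‖ + 1) :=
      (pi_norm_le_iff_of_nonneg (by positivity)).2 fun x => by
        rw [Pi.sub_apply, evs_apply, evs_apply, norm_sub_rev]
        exact (hK' x (Or.inr x.2)).trans (min_le_right _ _)
    have h8 := (le_abs_self _).trans (Θ.le_opNorm (evs Y F S - evs Y F K))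
    rw [map_sub] at h8
    rw [le_div_iff₀ (by positivity)] at h7
    nlinarith [norm_nonneg (evs Y F S - evs Y F K)]
  obtain ⟨_, ⟨K, ⟨hK, hn⟩, rfl⟩, hd⟩ := Metric.mem_closure_iff.1 key ε hε
  refine ⟨K, hK, by simpa using hn, fun x hx => ?_⟩
  rw [dist_comm, dist_eq_norm] at hd
  exact (norm_le_pi_norm (evs Y F K - evs Y F S) ⟨x, hx⟩).trans hd.le

theorem not_BS_compact [CompleteSpace X] [CompleteSpace Y] (E : Submodule ℝ X)
    (hE : ¬ FiniteDimensional ℝ E) (T : X →L[ℝ] Y) (hT : ∀ x, ‖T x‖ = ‖x‖) (S : X →L[ℝ] Y)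
    (hS : ∀ x ∈ E, S x = T x)
    (h : ∀ Q : Set X, IsCompact Q → ∀ ε : ℝ, 0 < ε →
      ∃ K : X →L[ℝ] Y, IsCompactOperator K ∧ ∀ x ∈ Q, ‖K x - S x‖ ≤ ε) :
    ¬ BhatiaSemrl T := fun hBS =>
  not_BS E hE T hT S hS (bounded_of_compact (refl_of_att (att_of_BS T hT hBS)) S h) hBS

/-- The case of a range space with the compact approximation property. -/
theorem not_BS_of_cap [CompleteSpace X] [CompleteSpace Y] (hX : ¬ FiniteDimensional ℝ X)
    (hY : CompactApprox (1 : Y →L[ℝ] Y)) (T : X →L[ℝ] Y) (hT : ∀ x, ‖T x‖ = ‖x‖) :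
    ¬ BhatiaSemrl T := by
  refine not_BS_compact ⊤
    (fun _ => hX (Submodule.topEquiv (R := ℝ) (M := X)).finiteDimensional) T hT T
    (fun _ _ => rfl) fun Q hQ ε hε => ?_
  obtain ⟨K, h1, h2⟩ := hY (T '' Q) (hQ.image T.continuous) ε hε
  refine ⟨K.comp T, h1.comp_clm T, fun x hx => ?_⟩
  rw [norm_sub_rev]
  exact h2 _ (mem_image_of_mem T hx)

end Pool.Agent.FS.RangeApprox
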